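import Pool.Agent.Lib_helper48.SJ.NUMb

set_option autoImplicit false

namespace Pool.Agent.SJ

/-- The prime powers from 3 to 24, with their primes. -/
def num_list : List (ℕ × ℕ) :=
  [(3, 3), (2, 4), (5, 5), (7, 7), (2, 8), (3, 9), (11, 11), (13, 13), (2, 16), (17, 17), (19, 19),
    (23, 23)]

theorem num_mem_list {p k : ℕ} (hp : p.Prime) (hq : 3 ≤ p ^ k) (hlt : p ^ k < 25)
    (h25 : p ^ k < 24) : (p, p ^ k) ∈ num_list := by
  have hk : k ≠ 0 := by rintro rfl; simp at hq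
  have hk5 : k < 5 := by
    by_contra hcon
    have h1 : 2 ^ 5 ≤ 2 ^ k := Nat.pow_le_pow_right (by norm_num) (by omega)
    have h2 : 2 ^ k ≤ p ^ k := Nat.pow_le_pow_left hp.two_le k
    omega
  have hp25 : p < 25 := by
    have := Nat.le_self_pow hk p
    omega
  have hp2 := hp.two_le
  interval_cases k
  · omega
  all_goals
    interval_cases p <;> first
      | (exfalso; revert hp; norm_num; done)
      | (exfalso; omega)
      | (simp [num_list])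

set_option maxRecDepth 100000 in
theorem num_small1 : ∀ x ∈ num_list, ∀ n < 25, 5 ≤ n → x.2 < n → ∃ c < x.2, 0 < c ∧
    Nat.Coprime c x.2 ∧ chk1 x.1 (dm n x.2) (nsg n x.2 c) (nsg n x.2 (x.2 - c))
      (x.2 = 3 ∧ (n = 7 ∨ n = 10 ∨ n = 16)) := by
  decide +kernel

set_option maxRecDepth 100000 in
theorem num_small2 : ∀ x ∈ num_list, ∀ n < 25, 5 ≤ n → x.2 < n → ∃ c < x.2, 0 < c ∧
    Nat.Coprime c x.2 ∧ 0 < nsg n x.2 c ∧ 0 < nsg n x.2 (x.2 - c) ∧ nsg n x.2 c < 25 ∧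
      ((nsg n x.2 c ≠ nsg n x.2 (x.2 - c) ∧ ¬ chkB (nsg n x.2 c) (nsg n x.2 (x.2 - c))) ∨
        4 * dm n x.2 < nsg n x.2 c * nsg n x.2 (x.2 - c) ∨
        ((x.2 = 3 ∧ (n = 7 ∨ n = 10 ∨ n = 16)) ∧
          2 * dm n x.2 < nsg n x.2 c * nsg n x.2 (x.2 - c))) := by
  decide +kernel

theorem Good_PS {p d a b : ℕ} {S : Prop} (h : Good p d a b) : PS p d a b S := by
  obtain ⟨hd, h⟩ := h
  rcases h with ⟨h1, h2⟩ | ⟨h1, h2, h3⟩ | ⟨h1, h2, h3⟩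
  · refine ⟨by omega, by omega, ?_⟩
    intro α β hα hβ he hdv _ _ _ _
    rw [h1] at hdv
    have := Nat.le_of_dvd (by norm_num) hdv
    omega
  · refine ⟨by omega, by omega, ?_⟩
    intro α β hα hβ he hdv c1 _ _ _
    rw [h1] at hdv
    have := Nat.le_of_dvd (by norm_num) hdv
    have hb : β = 2 := by omega
    subst hb
    rcases c1 (by omega) with ⟨h4, _⟩ | ⟨_, h4⟩
    · have := Nat.le_of_dvd (by norm_num) h4
      omega
    · omega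
  · refine ⟨by omega, by omega, ?_⟩
    intro α β hα hβ he hdv c1 _ c3 _
    have key : 4 * d < a * b := by
      obtain ⟨x, rfl⟩ := Nat.exists_eq_add_of_le h1
      obtain ⟨y, rfl⟩ := Nat.exists_eq_add_of_le h2
      nlinarith [Nat.zero_le (x * y)]
    by_cases hp : p = 3
    · rcases c3 hp with ⟨_, h4⟩ | ⟨h4, h5⟩
      · omega
      · have : α * β ≤ 4 * 4 := Nat.mul_le_mul h5 h4
        omega
    · rcases c1 hp with ⟨_, h4⟩ | ⟨h4, h5⟩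
      · omega
      · have : α * β ≤ 2 * 2 := Nat.mul_le_mul h5 h4
        omega

theorem Good_big {p d a b : ℕ} (h : Good p d a b) :
    0 < a ∧ 0 < b ∧ ((a ≠ b ∧ ¬ Bin a b) ∨ 4 * d < a * b) := by
  obtain ⟨hd, h⟩ := h
  rcases h with ⟨h1, h2⟩ | ⟨h1, h2, h3⟩ | ⟨h1, h2, h3⟩
  · exact ⟨by omega, by omega, Or.inl ⟨by omega, fun hB => by have := Bin_ge hB; omega⟩⟩
  · exact ⟨by omega, by omega, Or.inl ⟨by omega, fun hB => by have := Bin_ge hB; omega⟩⟩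
  · refine ⟨by omega, by omega, Or.inr ?_⟩
    obtain ⟨x, rfl⟩ := Nat.exists_eq_add_of_le h1
    obtain ⟨y, rfl⟩ := Nat.exists_eq_add_of_le h2
    nlinarith [Nat.zero_le (x * y)]

theorem exists_PS_pr {p k n : ℕ} (hp : p.Prime) (hq : 3 ≤ p ^ k) (hn : 5 ≤ n) :
    ∃ u : (ZMod (p ^ k))ˣ, PS p (dm n (p ^ k)) (sig n (p ^ k) (u : ZMod (p ^ k)))
      (sig n (p ^ k) (-(u : ZMod (p ^ k)))) (p ^ k = 3 ∧ (n = 7 ∨ n = 10 ∨ n = 16)) := by
  apply num_exists_unit hq (fun a b => PS p (dm n (p ^ k)) a b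
    (p ^ k = 3 ∧ (n = 7 ∨ n = 10 ∨ n = 16)))
  rcases Nat.lt_or_ge (p ^ k) n with hlt | hge
  · rcases Nat.lt_or_ge n 25 with h25 | h25
    · obtain ⟨c, h1, h2, h3, h4⟩ := num_small1 (p, p ^ k)
        (num_mem_list hp hq (by omega) (by omega)) n h25 hn hlt
      refine ⟨c, h2, h1, h3, chk1_PS ?_ h4⟩
      unfold dm
      split_ifs <;> omega
    · obtain ⟨c, h1, h2, h3, h4⟩ := num_case_large hp hq h25 hlt
      exact ⟨c, h1, h2, h3, Good_PS h4⟩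
  · obtain ⟨c, h1, h2, h3, h4⟩ := num_case_ge hp hq hn hge
    exact ⟨c, h1, h2, h3, Good_PS h4⟩

theorem exists_big_pr {p k n : ℕ} (hp : p.Prime) (hq : 3 ≤ p ^ k) (hn : 5 ≤ n) :
    ∃ u : (ZMod (p ^ k))ˣ, 0 < sig n (p ^ k) (u : ZMod (p ^ k)) ∧
      0 < sig n (p ^ k) (-(u : ZMod (p ^ k))) ∧
      ((sig n (p ^ k) (u : ZMod (p ^ k)) ≠ sig n (p ^ k) (-(u : ZMod (p ^ k))) ∧
          ¬ Bin (sig n (p ^ k) (u : ZMod (p ^ k))) (sig n (p ^ k) (-(u : ZMod (p ^ k))))) ∨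
        4 * dm n (p ^ k) < sig n (p ^ k) (u : ZMod (p ^ k)) * sig n (p ^ k) (-(u : ZMod (p ^ k))) ∨
        ((p ^ k = 3 ∧ (n = 7 ∨ n = 10 ∨ n = 16)) ∧ 2 * dm n (p ^ k) <
          sig n (p ^ k) (u : ZMod (p ^ k)) * sig n (p ^ k) (-(u : ZMod (p ^ k))))) := by
  apply num_exists_unit hq (fun a b => 0 < a ∧ 0 < b ∧ ((a ≠ b ∧ ¬ Bin a b) ∨
    4 * dm n (p ^ k) < a * b ∨ ((p ^ k = 3 ∧ (n = 7 ∨ n = 10 ∨ n = 16)) ∧
      2 * dm n (p ^ k) < a * b)))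
  rcases Nat.lt_or_ge (p ^ k) n with hlt | hge
  · rcases Nat.lt_or_ge n 25 with h25 | h25
    · obtain ⟨c, h1, h2, h3, h4, h5, h6, h7⟩ := num_small2 (p, p ^ k)
        (num_mem_list hp hq (by omega) (by omega)) n h25 hn hlt
      refine ⟨c, h2, h1, h3, h4, h5, ?_⟩
      rcases h7 with ⟨h8, h9⟩ | h8 | h8
      · exact Or.inl ⟨h8, chkB_Bin h6 h9⟩
      · exact Or.inr (Or.inl h8)
      · exact Or.inr (Or.inr h8)
    · obtain ⟨c, h1, h2, h3, h4⟩ := num_case_large hp hq h25 hlt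
      obtain ⟨g1, g2, g3⟩ := Good_big h4
      refine ⟨c, h1, h2, h3, g1, g2, ?_⟩
      rcases g3 with g3 | g3
      · exact Or.inl g3
      · exact Or.inr (Or.inl g3)
  · obtain ⟨c, h1, h2, h3, h4⟩ := num_case_ge hp hq hn hge
    obtain ⟨g1, g2, g3⟩ := Good_big h4
    refine ⟨c, h1, h2, h3, g1, g2, ?_⟩
    rcases g3 with g3 | g3
    · exact Or.inl g3
    · exact Or.inr (Or.inl g3)

end Pool.Agent.SJ
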