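import Pool.Agent.Lib_helper54.SJ.Defs

set_option autoImplicit false

namespace Pool.Agent.SJ

/-- sig on natural numbers. -/
def nsg (n q c : ℕ) : ℕ := if q ∣ n then n * c / q - 1 else n * c / q

theorem num_exists_unit {n q : ℕ} (hq : 3 ≤ q) (Q : ℕ → ℕ → Prop)
    (h : ∃ c, 0 < c ∧ c < q ∧ Nat.Coprime c q ∧ Q (nsg n q c) (nsg n q (q - c))) :
    ∃ u : (ZMod q)ˣ, Q (sig n q (u : ZMod q)) (sig n q (-(u : ZMod q))) := by
  obtain ⟨c, hc0, hcq, hc, hQ⟩ := h
  have : NeZero q := ⟨by omega⟩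
  refine ⟨ZMod.unitOfCoprime c hc, ?_⟩
  have h1 : ((ZMod.unitOfCoprime c hc : (ZMod q)ˣ) : ZMod q).val = c := by
    rw [ZMod.coe_unitOfCoprime, ZMod.val_natCast_of_lt hcq]
  have h0 : ((ZMod.unitOfCoprime c hc : (ZMod q)ˣ) : ZMod q) ≠ 0 := by
    intro h
    rw [h, ZMod.val_zero] at h1
    omega
  have h2 : (-((ZMod.unitOfCoprime c hc : (ZMod q)ˣ) : ZMod q)).val = q - c := by
    rw [ZMod.neg_val, if_neg h0, h1]
  have e1 : sig n q ((ZMod.unitOfCoprime c hc : (ZMod q)ˣ) : ZMod q) = nsg n q c := by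
    unfold sig nsg; rw [h1]
  have e2 : sig n q (-((ZMod.unitOfCoprime c hc : (ZMod q)ˣ) : ZMod q)) = nsg n q (q - c) := by
    unfold sig nsg; rw [h2]
  rw [e1, e2]
  exact hQ

/-- floor(x) + floor(n - x) = n - 1 for x = nc/q not integral. -/
theorem num_floor {n q c : ℕ} (hq : 0 < q) (hc : c < q) (hcop : Nat.Coprime c q) (h : ¬ q ∣ n) :
    n * c / q + n * (q - c) / q = n - 1 := by
  have hnd : ¬ q ∣ n * c := fun hd => h ((Nat.Coprime.dvd_of_dvd_mul_right hcop.symm hd))
  have hn : 0 < n := by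
    rcases Nat.eq_zero_or_pos n with h0 | h0
    · subst h0; exact absurd (dvd_zero q) h
    · exact h0
  have e : n * c + n * (q - c) = q * n := by
    rw [← Nat.mul_add, Nat.add_sub_cancel' hc.le, Nat.mul_comm]
  have d1 := Nat.div_add_mod (n * c) q
  have d2 := Nat.div_add_mod (n * (q - c)) q
  have m1 : 0 < n * c % q := Nat.pos_of_ne_zero fun h0 => hnd (Nat.dvd_of_mod_eq_zero h0)
  have l1 := Nat.mod_lt (n * c) hq
  have l2 := Nat.mod_lt (n * (q - c)) hq
  set A := n * c / q
  set B := n * (q - c) / q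
  set r := n * c % q
  set s := n * (q - c) % q
  have e3 : q * (A + B) + (r + s) = q * n := by
    rw [Nat.mul_add]; omega
  have h1 : A + B < n := by
    by_contra hcon
    have : q * n ≤ q * (A + B) := Nat.mul_le_mul_left _ (by omega)
    omega
  have h2 : n < A + B + 2 := by
    by_contra hcon
    have : q * (A + B + 2) ≤ q * n := Nat.mul_le_mul_left _ (by omega)
    have e4 : q * (A + B + 2) = q * (A + B) + 2 * q := by ring
    omega
  omega

theorem num_add {n q c : ℕ} (hn : 1 ≤ n) (hc0 : 0 < c) (hc : c < q) (hcop : Nat.Coprime c q) :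
    nsg n q c + nsg n q (q - c) = dm n q := by
  have hq : 0 < q := by omega
  unfold nsg dm
  by_cases h : q ∣ n
  · rw [if_pos h, if_pos h, if_pos h]
    obtain ⟨m, rfl⟩ := h
    have hm : 1 ≤ m := by
      rcases Nat.eq_zero_or_pos m with h0 | h0
      · subst h0; omega
      · exact h0
    have e1 : q * m * c / q = m * c := by
      rw [Nat.mul_assoc, Nat.mul_div_cancel_left _ hq]
    have e2 : q * m * (q - c) / q = m * (q - c) := by
      rw [Nat.mul_assoc, Nat.mul_div_cancel_left _ hq]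
    rw [e1, e2]
    have f1 : 1 ≤ m * c := Nat.mul_pos hm hc0
    have f2 : 1 ≤ m * (q - c) := Nat.mul_pos hm (by omega)
    have f3 : m * c + m * (q - c) = q * m := by
      rw [← Nat.mul_add, Nat.add_sub_cancel' hc.le, Nat.mul_comm]
    omega
  · rw [if_neg h, if_neg h, if_neg h]
    exact num_floor hq hc hcop h

theorem num_mono {n q c c' : ℕ} (h : c ≤ c') : nsg n q c ≤ nsg n q c' := by
  unfold nsg
  have : n * c / q ≤ n * c' / q := Nat.div_le_div_right (Nat.mul_le_mul_left _ h)
  split_ifs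
  · omega
  · exact this

/-- The conclusion of the two easy ranges. -/
def Good (p d a b : ℕ) : Prop :=
  a + b = d ∧ ((a = 1 ∧ 2 ≤ b) ∨ (a = 2 ∧ 3 ≤ b ∧ p = 2) ∨ (6 ≤ a ∧ 6 ≤ b ∧ 23 ≤ d))

theorem num_case_large {p k n : ℕ} (hp : p.Prime) (hq : 3 ≤ p ^ k) (hn : 25 ≤ n)
    (_hqn : p ^ k < n) :
    ∃ c, 0 < c ∧ c < p ^ k ∧ Nat.Coprime c (p ^ k) ∧
      Good p (dm n (p ^ k)) (nsg n (p ^ k) c) (nsg n (p ^ k) (p ^ k - c)) := by
  set q := p ^ k with hqd
  have key : ∀ c, 0 < c → 2 * c ≤ q → q ≤ 4 * c → Nat.Coprime c q →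
      Good p (dm n q) (nsg n q c) (nsg n q (q - c)) := by
    intro c hc0 hc2 hc4 hcop
    have hadd := num_add (n := n) (by omega) hc0 (by omega : c < q) hcop
    have ha : 6 ≤ nsg n q c := by
      have h1 : n ≤ 4 * (n * c / q) + 3 := by
        have hlt : n * c < q * (n * c / q + 1) := by
          have := Nat.lt_mul_div_succ (n * c) (by omega : 0 < q)
          simpa using this
        by_contra hcon
        have h3 : 4 * (n * c / q + 1) ≤ n := by omega
        have h4 : q * n ≤ 4 * c * n := Nat.mul_le_mul_right _ hc4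
        have h5 : q * (4 * (n * c / q + 1)) ≤ q * n := Nat.mul_le_mul_left _ h3
        nlinarith
      unfold nsg
      split_ifs with hd
      · have h2 : n ≤ 4 * (n * c / q) := by
          obtain ⟨m, hm⟩ := hd
          have e1 : n * c / q = m * c := by
            rw [hm, Nat.mul_assoc, Nat.mul_div_cancel_left _ (by omega)]
          rw [e1, hm]
          nlinarith
        omega
      · omega
    have hb : nsg n q c ≤ nsg n q (q - c) := num_mono (by omega)
    refine ⟨hadd, Or.inr (Or.inr ⟨ha, by omega, ?_⟩)⟩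
    unfold dm
    split_ifs <;> omega
  rcases hp.eq_two_or_odd' with h2 | hodd
  · -- p = 2
    subst h2
    have hk : 2 ≤ k := by
      by_contra hcon
      have : k = 0 ∨ k = 1 := by omega
      rcases this with h | h <;> subst h <;> simp [hqd] at hq
    obtain ⟨j, rfl⟩ : ∃ j, k = j + 2 := ⟨k - 2, by omega⟩
    have hqq : q = 4 * 2 ^ j := by rw [hqd, pow_add]; ring
    rcases Nat.eq_zero_or_pos j with hj | hj
    · subst hj
      refine ⟨1, by omega, by omega, Nat.coprime_one_left _, key 1 (by omega) (by omega) ?_ (Nat.coprime_one_left _)⟩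
      rw [hqq]; norm_num
    · obtain ⟨i, rfl⟩ : ∃ i, j = i + 1 := ⟨j - 1, by omega⟩
      have hq8 : q = 8 * 2 ^ i := by rw [hqq, pow_succ]; ring
      have hi : 1 ≤ 2 ^ i := Nat.one_le_two_pow
      have hcop : Nat.Coprime (4 * 2 ^ i - 1) q := by
        rw [hqd]
        apply Nat.Coprime.pow_right
        rw [Nat.coprime_two_right]
        refine ⟨2 * 2 ^ i - 1, by omega⟩
      exact ⟨4 * 2 ^ i - 1, by omega, by omega, hcop,
        key (4 * 2 ^ i - 1) (by omega) (by omega) (by omega) hcop⟩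
  · have hqo : Odd q := hodd.pow
    obtain ⟨m, hm⟩ := hqo
    have hcop : Nat.Coprime m q := by
      rw [hm]
      have : Nat.Coprime m (2 * m + 1) := by
        rw [Nat.coprime_comm]
        have := (Nat.coprime_mul_left_add_left 1 m 2).mpr (Nat.coprime_one_left m)
        rwa [Nat.add_comm, Nat.mul_comm m 2, Nat.add_comm] at this
      exact this
    exact ⟨m, by omega, by omega, hcop, key m (by omega) (by omega) (by omega) hcop⟩

end Pool.Agent.SJ
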