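import Pool.Agent.Lib_helper48.SJ.NUMa

set_option autoImplicit false

namespace Pool.Agent.SJ

theorem num_case_ge {p k n : ℕ} (hp : p.Prime) (hq : 3 ≤ p ^ k) (hn : 5 ≤ n)
    (hqn : n ≤ p ^ k) :
    ∃ c, 0 < c ∧ c < p ^ k ∧ Nat.Coprime c (p ^ k) ∧
      Good p (dm n (p ^ k)) (nsg n (p ^ k) c) (nsg n (p ^ k) (p ^ k - c)) := by
  have hk : k ≠ 0 := by rintro rfl; simp at hq
  have cop : ∀ c, ¬ p ∣ c → Nat.Coprime c (p ^ k) := fun c h =>
    Nat.Coprime.pow_right k ((Nat.Prime.coprime_iff_not_dvd hp).mpr h).symm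
  set q := p ^ k with hqd
  have hp2 := hp.two_le
  rcases Nat.eq_or_lt_of_le hqn with heq | hlt
  · -- q = n
    have hdiv : q ∣ n := by rw [heq]
    have hs : ∀ c, nsg n q c = c - 1 := by
      intro c
      unfold nsg
      rw [if_pos hdiv, heq, Nat.mul_div_cancel_left _ (by omega)]
    rcases hp.eq_two_or_odd' with h2 | hodd
    · have hn8 : 8 ≤ n := by
        rcases Nat.lt_or_ge k 3 with h | h
        · have hqle : q ≤ 4 := by
            rw [hqd, h2]
            calc 2 ^ k ≤ 2 ^ 2 := Nat.pow_le_pow_right (by norm_num) (by omega)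
              _ = 4 := by norm_num
          omega
        · have : 2 ^ 3 ≤ q := by
            rw [hqd, h2]; exact Nat.pow_le_pow_right (by norm_num) h
          omega
      have hc : Nat.Coprime 3 q := cop 3 (by rw [h2]; norm_num)
      have hadd := num_add (n := n) (by omega) (by omega : 0 < 3) (by omega : 3 < q) hc
      refine ⟨3, by omega, by omega, hc, hadd, Or.inr (Or.inl ⟨?_, ?_, h2⟩)⟩
      · rw [hs]
      · rw [hs]; omega
    · have hc : Nat.Coprime 2 q := cop 2 (by
        intro h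
        have := (Nat.prime_dvd_prime_iff_eq hp Nat.prime_two).mp h
        subst this
        exact absurd hodd (by decide))
      have hadd := num_add (n := n) (by omega) (by omega : 0 < 2) (by omega : 2 < q) hc
      refine ⟨2, by omega, by omega, hc, hadd, Or.inl ⟨?_, ?_⟩⟩
      · rw [hs]
      · rw [hs]; omega
  · -- n < q
    have hnd : ¬ q ∣ n := fun h => absurd (Nat.le_of_dvd (by omega) h) (by omega)
    have hs : ∀ c, nsg n q c = n * c / q := fun c => by unfold nsg; rw [if_neg hnd]
    have hdm : dm n q = n - 1 := by unfold dm; rw [if_neg hnd]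
    have fin1 : ∀ c, 0 < c → c < q → ¬ p ∣ c → q ≤ n * c → n * c < 2 * q →
        ∃ c, 0 < c ∧ c < q ∧ Nat.Coprime c q ∧ Good p (dm n q) (nsg n q c) (nsg n q (q - c)) := by
      intro c h1 h2 h3 h4 h5
      have hadd := num_add (n := n) (by omega) h1 h2 (cop c h3)
      have ha : n * c / q = 1 := by
        apply Nat.div_eq_of_lt_le <;> omega
      refine ⟨c, h1, h2, cop c h3, hadd, Or.inl ⟨by rw [hs]; exact ha, ?_⟩⟩
      rw [hs c, ha, hdm] at hadd
      omega
    by_cases hbig : 2 * n ≤ q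
    · -- two consecutive integers
      obtain ⟨t, r, hd, hm⟩ : ∃ t r, n * t + r = q - 1 ∧ r < n :=
        ⟨(q - 1) / n, (q - 1) % n, Nat.div_add_mod (q - 1) n, Nat.mod_lt _ (by omega)⟩
      obtain ⟨c0, hc0⟩ : ∃ c0, c0 = t + 1 := ⟨_, rfl⟩
      have e0 : n * c0 = n * t + n := by rw [hc0]; ring
      have h4 : q ≤ n * c0 := by omega
      have h5 : n * c0 + n < 2 * q := by omega
      have hlt' : c0 + 1 < q := by
        have : 5 * (c0 + 1) ≤ n * (c0 + 1) := Nat.mul_le_mul_right _ hn
        have e1 : n * (c0 + 1) = n * c0 + n := by ring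
        omega
      by_cases hpc : p ∣ c0
      · refine fin1 (c0 + 1) (by omega) hlt' ?_ ?_ ?_
        · intro h
          have := (Nat.dvd_add_right hpc).mp h
          have := Nat.le_of_dvd (by omega) this
          omega
        · have e1 : n * (c0 + 1) = n * c0 + n := by ring
          omega
        · have e1 : n * (c0 + 1) = n * c0 + n := by ring
          omega
      · exact fin1 c0 (by omega) (by omega) hpc h4 (by omega)
    · rcases hp.eq_two_or_odd' with h2 | hodd
      · have hn8 : 8 ≤ q := by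
          rcases Nat.lt_or_ge k 3 with h | h
          · have hqle : q ≤ 4 := by
              rw [hqd, h2]
              calc 2 ^ k ≤ 2 ^ 2 := Nat.pow_le_pow_right (by norm_num) (by omega)
                _ = 4 := by norm_num
            omega
          · have : 2 ^ 3 ≤ q := by
              rw [hqd, h2]; exact Nat.pow_le_pow_right (by norm_num) h
            omega
        have hp3 : ¬ p ∣ 3 := by rw [h2]; norm_num
        by_cases h3 : n * 3 < 2 * q
        · exact fin1 3 (by omega) (by omega) hp3 (by omega) h3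
        · have hc : Nat.Coprime 3 q := cop 3 hp3
          have hadd := num_add (n := n) (by omega) (by omega : 0 < 3) (by omega : 3 < q) hc
          have ha : n * 3 / q = 2 := by
            apply Nat.div_eq_of_lt_le <;> omega
          refine ⟨3, by omega, by omega, hc, hadd, Or.inr (Or.inl ⟨by rw [hs]; exact ha, ?_, h2⟩)⟩
          rw [hs 3, ha, hdm] at hadd
          omega
      · refine fin1 2 (by omega) (by omega) ?_ (by omega) (by omega)
        intro h
        have := (Nat.prime_dvd_prime_iff_eq hp Nat.prime_two).mp h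
        subst this
        exact absurd hodd (by decide)

/-- Small cases for NUM1. -/
def chk1 (p d a b : ℕ) (S : Prop) : Prop :=
  0 < a ∧ 0 < b ∧ ∀ α < 25, ¬ (2 ≤ α ∧ α ∣ d ∧ 2 ≤ d / α ∧ d / α ∣ a ∧
    (p = 3 ∨ (α ∣ d / α ∧ a * b ≤ 2 * d) ∨ (d / α ≤ 2 ∧ α ≤ 2)) ∧
    (p ≠ 3 ∨ (α ∣ d / α ∧ a * b ≤ 2 * d) ∨
      ((d / α ≤ 2 ∨ α ∣ 2) ∧ (α ≤ 2 ∨ d / α ∣ 2))) ∧
    (p ≠ 3 ∨ (α ∣ d / α ∧ a * b ≤ 4 * d) ∨ (d / α ≤ 4 ∧ α ≤ 4)) ∧
    (¬ S ∨ (α ∣ d / α ∧ a * b ≤ d)))

instance chk1_dec (p d a b : ℕ) (S : Prop) [Decidable S] : Decidable (chk1 p d a b S) := by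
  unfold chk1; infer_instance

theorem chk1_PS {p d a b : ℕ} {S : Prop} (hd : d < 25) (h : chk1 p d a b S) :
    PS p d a b S := by
  obtain ⟨h1, h2, h3⟩ := h
  refine ⟨h1, h2, ?_⟩
  intro α β hα hβ hd' hba
  have e : d / α = β := by
    rw [← hd', Nat.mul_div_cancel_left _ (by omega)]
  have hlt : α < 25 := by
    have : α * 2 ≤ α * β := Nat.mul_le_mul_left _ hβ
    omega
  intro c1 c2 c3 c4
  have h4 := h3 α hlt
  rw [e] at h4
  apply h4
  refine ⟨hα, ⟨β, hd'.symm⟩, hβ, hba, ?_, ?_, ?_, ?_⟩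
  · by_cases hp : p = 3
    · exact Or.inl hp
    · exact Or.inr (c1 hp)
  · by_cases hp : p = 3
    · right
      rcases c2 hp with h | ⟨h, h'⟩
      · exact Or.inl h
      · right
        constructor
        · rcases Nat.lt_or_ge 2 β with hh | hh
          · exact Or.inr (h hh)
          · exact Or.inl hh
        · rcases Nat.lt_or_ge 2 α with hh | hh
          · exact Or.inr (h' hh)
          · exact Or.inl hh
    · exact Or.inl hp
  · by_cases hp : p = 3
    · exact Or.inr (c3 hp)
    · exact Or.inl hp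
  · by_cases hS : S
    · exact Or.inr (c4 hS)
    · exact Or.inl hS

/-- Bounded form of Bin. -/
def chkB (a b : ℕ) : Prop :=
  ∃ m < 25, ∃ k < m, 1 ≤ k ∧ a = (m + 1).choose (k + 1) ∧ b = (m + 1).choose k

instance (a b : ℕ) : Decidable (chkB a b) := by
  unfold chkB; infer_instance

theorem Bin_ge {a b : ℕ} (h : Bin a b) : 3 ≤ a ∧ 3 ≤ b := by
  obtain ⟨m, k, h1, h2, rfl, rfl⟩ := h
  constructor
  · have := Nat.choose_le_choose (k + 1) (by omega : k + 2 ≤ m + 1)
    have e : (k + 2).choose (k + 1) = k + 2 := by simp [Nat.choose_succ_self_right]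
    omega
  · have := Nat.choose_le_choose k (by omega : k + 2 ≤ m + 1)
    have e : (k + 2).choose k = (k + 2) * (k + 1) / 2 := by
      rw [← Nat.choose_symm (by omega : k ≤ k + 2)]
      rw [Nat.add_sub_cancel_left, Nat.choose_two_right]
      rfl
    have h3 : 3 ≤ (k + 2) * (k + 1) / 2 := by
      rw [Nat.le_div_iff_mul_le (by norm_num)]
      nlinarith
    omega

theorem num_choose_ge : ∀ n r : ℕ, 1 ≤ r → r < n → n ≤ n.choose r
  | 0, r, _, h => by omega
  | n + 1, 0, h, _ => by omega
  | n + 1, r + 1, _, h => by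
    rw [Nat.choose_succ_succ']
    rcases Nat.eq_zero_or_pos r with h0 | h0
    · subst h0
      simp
    · have h1 := num_choose_ge n r h0 (by omega)
      have h2 : 0 < n.choose (r + 1) := Nat.choose_pos (by omega)
      omega

theorem chkB_Bin {a b : ℕ} (ha : a < 25) (h : ¬ chkB a b) : ¬ Bin a b := by
  rintro ⟨m, k, h1, h2, h3, h4⟩
  apply h
  refine ⟨m, ?_, k, h2, h1, h3, h4⟩
  have hm : m + 1 ≤ (m + 1).choose (k + 1) := num_choose_ge _ _ (by omega) (by omega)
  omega

end Pool.Agent.SJ
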