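import Pool.Agent.Lib_helper54.SJ.Defs

/-! Permutations with prescribed characteristic polynomials. -/

set_option autoImplicit false
set_option linter.unusedSimpArgs false

namespace Pool.Agent.SJ

open Polynomial Matrix

theorem perm_apply {m : ℕ} (R : Type*) [CommRing R] (τ : Equiv.Perm (Fin m)) (i j : Fin m) :
    τ.permMatrix R i j = if τ i = j then 1 else 0 := by
  simp [Equiv.Perm.permMatrix, PEquiv.toMatrix_apply, eq_comm]

theorem perm_det4 (R : Type*) [CommRing R] :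
    ((Equiv.swap (0 : Fin 4) 1 * Equiv.swap (2 : Fin 4) 3).permMatrix R).charpoly
      = (X ^ 2 - 1) ^ 2 := by
  have key : ∀ i, (Equiv.swap (0 : Fin 4) 1 * Equiv.swap (2 : Fin 4) 3) i = ![1, 0, 3, 2] i := by
    decide
  have h : (Equiv.swap (0 : Fin 4) 1 * Equiv.swap (2 : Fin 4) 3).permMatrix R
      = !![0, 1, 0, 0; 1, 0, 0, 0; 0, 0, 0, 1; 0, 0, 1, 0] := by
    ext i j
    rw [perm_apply, key]
    fin_cases i <;> fin_cases j <;> simp
  rw [h, Matrix.charpoly]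
  have h2 : charmatrix (!![0, 1, 0, 0; 1, 0, 0, 0; 0, 0, 0, 1; 0, 0, 1, 0] : Matrix (Fin 4) (Fin 4) R)
      = !![X, -1, 0, 0; -1, X, 0, 0; 0, 0, X, -1; 0, 0, -1, X] := by
    ext i j
    fin_cases i <;> fin_cases j <;> simp
  rw [h2, Matrix.det_succ_row_zero]
  simp [Fin.sum_univ_succ, Matrix.det_succ_row_zero]
  rw [show Fin.succAbove (1 : Fin 4) (2 : Fin 3) = 3 from rfl]
  simp
  ring

theorem perm_det5 (R : Type*) [CommRing R] :
    ((finRotate 5).permMatrix R).charpoly = X ^ 5 - 1 := by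
  have key : ∀ i, (finRotate 5) i = ![1, 2, 3, 4, 0] i := by
    decide
  have h : (finRotate 5).permMatrix R = !![0, 1, 0, 0, 0; 0, 0, 1, 0, 0; 0, 0, 0, 1, 0;
      0, 0, 0, 0, 1; 1, 0, 0, 0, 0] := by
    ext i j
    rw [perm_apply, key]
    fin_cases i <;> fin_cases j <;> simp
  rw [h, Matrix.charpoly]
  have h2 : charmatrix (!![0, 1, 0, 0, 0; 0, 0, 1, 0, 0; 0, 0, 0, 1, 0;
      0, 0, 0, 0, 1; 1, 0, 0, 0, 0] : Matrix (Fin 5) (Fin 5) R)
      = !![X, -1, 0, 0, 0; 0, X, -1, 0, 0; 0, 0, X, -1, 0; 0, 0, 0, X, -1; -1, 0, 0, 0, X] := by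
    ext i j
    fin_cases i <;> fin_cases j <;> simp
  rw [h2, Matrix.det_succ_row_zero]
  simp [Fin.sum_univ_succ, Matrix.det_succ_row_zero]
  rw [show Fin.succAbove (1 : Fin 4) (2 : Fin 3) = 3 from rfl,
    show Fin.succAbove (2 : Fin 4) (2 : Fin 3) = 3 from rfl,
    show Fin.succAbove (3 : Fin 4) (2 : Fin 3) = 2 from rfl,
    show Fin.succAbove (1 : Fin 5) (2 : Fin 4) = 3 from rfl,
    show Fin.succAbove (1 : Fin 5) (3 : Fin 4) = 4 from rfl]
  simp
  ring

theorem perm_det2 (R : Type*) [CommRing R] :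
    ((Equiv.swap (0 : Fin 2) 1).permMatrix R).charpoly = X ^ 2 - 1 := by
  have h : (Equiv.swap (0 : Fin 2) 1).permMatrix R = !![0, 1; 1, 0] := by
    ext i j
    fin_cases i <;> fin_cases j <;> simp [Equiv.Perm.permMatrix, PEquiv.toMatrix_apply]
  rw [h, Matrix.charpoly]
  have h2 : charmatrix (!![0, 1; 1, 0] : Matrix (Fin 2) (Fin 2) R) = !![X, -1; -1, X] := by
    ext i j
    fin_cases i <;> fin_cases j <;> simp
  rw [h2, Matrix.det_fin_two_of]
  ring

theorem perm_det3 (R : Type*) [CommRing R] :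
    ((finRotate 3).permMatrix R).charpoly = X ^ 3 - 1 := by
  have key : ∀ i, (finRotate 3) i = ![1, 2, 0] i := by
    decide
  have h : (finRotate 3).permMatrix R = !![0, 1, 0; 0, 0, 1; 1, 0, 0] := by
    ext i j
    rw [perm_apply, key]
    fin_cases i <;> fin_cases j <;> simp
  rw [h, Matrix.charpoly]
  have h2 : charmatrix (!![0, 1, 0; 0, 0, 1; 1, 0, 0] : Matrix (Fin 3) (Fin 3) R)
      = !![X, -1, 0; 0, X, -1; -1, 0, X] := by
    ext i j
    fin_cases i <;> fin_cases j <;> simp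
  rw [h2, Matrix.det_fin_three]
  simp
  ring

/-- Extension of a permutation of Fin m to Fin n by the identity. -/
theorem perm_ext {m n : ℕ} (hmn : m ≤ n) (τ : Equiv.Perm (Fin m)) :
    ∃ σ : Equiv.Perm (Fin n), Equiv.Perm.sign σ = Equiv.Perm.sign τ ∧
      ∀ (R : Type*) [CommRing R], (σ.permMatrix R).charpoly
        = (τ.permMatrix R).charpoly * (X - 1) ^ (n - m) := by
  let e : Fin m ⊕ Fin (n - m) ≃ Fin n := finSumFinEquiv.trans (finCongr (by omega))
  let ρ : Equiv.Perm (Fin m ⊕ Fin (n - m)) := Equiv.sumCongr τ 1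
  refine ⟨e.permCongr ρ, ?_, ?_⟩
  · rw [Equiv.Perm.sign_permCongr]
    show Equiv.Perm.sign (Equiv.Perm.sumCongr τ 1) = _
    rw [Equiv.Perm.sign_sumCongr, Equiv.Perm.sign_one, mul_one]
  · intro R _
    have h : (e.permCongr ρ).permMatrix R
        = Matrix.reindex e e (Matrix.fromBlocks (τ.permMatrix R) 0 0 1) := by
      ext i j
      obtain ⟨i, rfl⟩ := e.surjective i
      obtain ⟨j, rfl⟩ := e.surjective j
      rw [perm_apply, Equiv.permCongr_apply, Equiv.symm_apply_apply, Matrix.reindex_apply,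
        Matrix.submatrix_apply, Equiv.symm_apply_apply, Equiv.symm_apply_apply]
      rcases i with i | i <;> rcases j with j | j
      · rw [Matrix.fromBlocks_apply₁₁, perm_apply]
        congr 1
        rw [e.apply_eq_iff_eq]
        show (Sum.inl (τ i) = Sum.inl j) = _
        rw [Sum.inl.injEq]
      · rw [Matrix.fromBlocks_apply₁₂, Matrix.zero_apply, if_neg]
        rw [e.apply_eq_iff_eq]
        show ¬ (Sum.inl (τ i) = Sum.inr j)
        exact Sum.inl_ne_inr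
      · rw [Matrix.fromBlocks_apply₂₁, Matrix.zero_apply, if_neg]
        rw [e.apply_eq_iff_eq]
        show ¬ (Sum.inr i = Sum.inl j)
        exact Sum.inr_ne_inl
      · rw [Matrix.fromBlocks_apply₂₂, Matrix.one_apply]
        congr 1
        rw [e.apply_eq_iff_eq]
        show (Sum.inr i = Sum.inr j) = _
        rw [Sum.inr.injEq]
    rw [h, Matrix.charpoly_reindex, Matrix.charpoly_fromBlocks_zero₁₂, Matrix.charpoly_one,
      Fintype.card_fin]

theorem exists_perm_pr {n m c : ℕ} (hn : 5 ≤ n)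
    (h : (m = 2 ∧ c = 1) ∨ (m = 2 ∧ c = 2) ∨ (m = 3 ∧ c = 1) ∨ (m = 5 ∧ c = 1)) :
    ∃ σ : Equiv.Perm (Fin n), (c ≠ 1 ∨ m ≠ 2 → σ ∈ alternatingGroup (Fin n)) ∧
      ∀ (k : Type*) [Field k], (σ.permMatrix k).charpoly =
        (Polynomial.X ^ m - 1) ^ c * (Polynomial.X - 1) ^ (n - m * c) := by
  rcases h with ⟨rfl, rfl⟩ | ⟨rfl, rfl⟩ | ⟨rfl, rfl⟩ | ⟨rfl, rfl⟩
  · obtain ⟨σ, hσ, hc⟩ := perm_ext (n := n) (by omega) (Equiv.swap (0 : Fin 2) 1)
    refine ⟨σ, by simp, fun k _ => ?_⟩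
    rw [hc, perm_det2, pow_one]
  · obtain ⟨σ, hσ, hc⟩ := perm_ext (n := n) (by omega)
      (Equiv.swap (0 : Fin 4) 1 * Equiv.swap (2 : Fin 4) 3)
    refine ⟨σ, fun _ => ?_, fun k _ => ?_⟩
    · rw [Equiv.Perm.mem_alternatingGroup, hσ]
      decide
    · rw [hc, perm_det4]
  · obtain ⟨σ, hσ, hc⟩ := perm_ext (n := n) (by omega) (finRotate 3)
    refine ⟨σ, fun _ => ?_, fun k _ => ?_⟩
    · rw [Equiv.Perm.mem_alternatingGroup, hσ]
      decide
    · rw [hc, perm_det3, pow_one]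
  · obtain ⟨σ, hσ, hc⟩ := perm_ext (n := n) (by omega) (finRotate 5)
    refine ⟨σ, fun _ => ?_, fun k _ => ?_⟩
    · rw [Equiv.Perm.mem_alternatingGroup, hσ, sign_finRotate]
      decide
    · rw [hc, perm_det5, pow_one]

end Pool.Agent.SJ
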